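import Pool.Agent.Y354.DC3.Stm

/-!
# DC3: two Cauchy-Schwarz inequalities (helper349, for helper354)
-/

set_option autoImplicit false

open Finset
open scoped Classical

namespace Pool.Agent.Y349.DC3.J

open Pool.Agent.Y354.DC3

theorem I_nonneg (p : Prop) : 0 ≤ I p := by
  unfold I
  split_ifs <;> norm_num

theorem I_true {p : Prop} (h : p) : I p = 1 := if_pos h

theorem I_false {p : Prop} (h : ¬ p) : I p = 0 := if_neg h

variable {V : Type} [Fintype V]

/-- the weight of a tuple -/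
noncomputable def wt (μ : V → ℝ) (N : V → V → V → Prop) {k : ℕ} (x : Fin k → V) : ℝ :=
  I (Ind N x) * ∏ i, μ (x i)

theorem wt_nonneg {μ : V → ℝ} (h : ∀ v, 0 ≤ μ v) (N : V → V → V → Prop) {k : ℕ}
    (x : Fin k → V) : 0 ≤ wt μ N x :=
  mul_nonneg (I_nonneg _) (prod_nonneg fun i _ => h _)

theorem E_eq (μ : V → ℝ) (N : V → V → V → Prop) (k : ℕ) (F : (Fin k → V) → ℝ) :
    E μ N k F = ∑ x : Fin k → V, wt μ N x * F x := rfl

theorem E_add (μ : V → ℝ) (N : V → V → V → Prop) (k : ℕ) (F G : (Fin k → V) → ℝ) :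
    E μ N k F + E μ N k G = E μ N k (fun x => F x + G x) := by
  rw [E_eq, E_eq, E_eq, ← sum_add_distrib]
  exact sum_congr rfl fun x _ => by ring

theorem P_succ (hEX : S_EX) (μ : V → ℝ) {N : V → V → V → Prop} (hN : Sy N) (k : ℕ) :
    P μ N (k + 1) = E μ N k (fun y => ∑ w, μ w * I (Al N y w)) := by
  have h := hEX V μ N hN k 0 (fun _ _ => 1)
  simp only [mul_one] at h
  exact h

theorem s_j1 : S_AL → S_EX → S_J1 := by
  intro hAL hEX V _ μ N hN hμ k
  have h1 : P μ N (k + 1 + 1) = E μ N k (fun y => ∑ w, μ w * I (Al N y w) *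
      ∑ u, μ u * I (Al N y u ∧ ¬ Ad N y w u)) := by
    rw [P_succ hEX μ hN (k + 1)]
    have h := hEX V μ N hN k 0 (fun y w => ∑ u, μ u * I (Al N y u ∧ ¬ Ad N y w u))
    rw [← h]
    congr 1
    funext x
    refine sum_congr rfl fun u _ => ?_
    have h2 := (hAL V N hN k 0 x).2.1 u
    rw [show I (Al N x u) = I (Al N (rm x 0) u ∧ ¬ Ad N (rm x 0) (x 0) u) by rw [h2]]
  have h2 : P μ N (k + 2) + Y μ N k = E μ N k (fun y => (∑ w, μ w * I (Al N y w)) ^ 2) := by
    rw [show k + 2 = k + 1 + 1 from rfl, h1]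
    unfold Y
    rw [E_add]
    congr 1
    funext y
    rw [sq, sum_mul_sum, ← sum_add_distrib]
    refine sum_congr rfl fun w _ => ?_
    rw [mul_sum, ← sum_add_distrib]
    refine sum_congr rfl fun u _ => ?_
    by_cases hw : Al N y w
    · by_cases hu : Al N y u
      · by_cases ha : Ad N y w u
        · rw [I_true hw, I_true hu, I_false (p := Al N y u ∧ ¬ Ad N y w u) (fun h => h.2 ha),
            I_true (p := Al N y w ∧ Al N y u ∧ Ad N y w u) ⟨hw, hu, ha⟩]
          ring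
        · rw [I_true hw, I_true hu, I_true (p := Al N y u ∧ ¬ Ad N y w u) ⟨hu, ha⟩,
            I_false (p := Al N y w ∧ Al N y u ∧ Ad N y w u) (fun h => ha h.2.2)]
          ring
      · rw [I_true hw, I_false hu, I_false (p := Al N y u ∧ ¬ Ad N y w u) (fun h => hu h.1),
          I_false (p := Al N y w ∧ Al N y u ∧ Ad N y w u) (fun h => hu h.2.1)]
        ring
    · rw [I_false hw, I_false (p := Al N y w ∧ Al N y u ∧ Ad N y w u) (fun h => hw h.1)]
      ring
  rw [h2, P_succ hEX μ hN k]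
  unfold P
  rw [E_eq, E_eq, E_eq]
  apply Finset.sum_sq_le_sum_mul_sum_of_sq_eq_mul
  · intro x _
    rw [mul_one]
    exact wt_nonneg hμ N x
  · intro x _
    exact mul_nonneg (wt_nonneg hμ N x) (sq_nonneg _)
  · intro x _
    ring

theorem s_j5 : S_AL → S_EX → S_J5 := by
  intro hAL hEX V _ μ N hN hμ k
  have h1 : Y μ N k = ∑ z : (Fin k → V) × V, (wt μ N z.1 * (μ z.2 * I (Al N z.1 z.2))) *
      ∑ v, μ v * I (Al N z.1 v ∧ Ad N z.1 z.2 v) := by
    unfold Y
    rw [E_eq, Fintype.sum_prod_type]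
    refine sum_congr rfl fun x _ => ?_
    rw [mul_sum]
    refine sum_congr rfl fun w _ => ?_
    rw [mul_assoc (wt μ N x)]
    congr 1
    rw [mul_sum]
    refine sum_congr rfl fun u _ => ?_
    by_cases hw : Al N x w
    · by_cases hu : Al N x u ∧ Ad N x w u
      · rw [I_true hw, I_true hu,
          I_true (p := Al N x w ∧ Al N x u ∧ Ad N x w u) ⟨hw, hu⟩]
        ring
      · rw [I_true hw, I_false hu,
          I_false (p := Al N x w ∧ Al N x u ∧ Ad N x w u) (fun h => hu h.2)]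
        ring
    · rw [I_false hw, I_false (p := Al N x w ∧ Al N x u ∧ Ad N x w u) (fun h => hw h.1)]
      ring
  have h2 : D μ N k = ∑ z : (Fin k → V) × V, (wt μ N z.1 * (μ z.2 * I (Al N z.1 z.2))) *
      (∑ v, μ v * I (Al N z.1 v ∧ Ad N z.1 z.2 v)) ^ 2 := by
    unfold D
    rw [E_eq, Fintype.sum_prod_type]
    refine sum_congr rfl fun x _ => ?_
    rw [mul_sum]
    exact sum_congr rfl fun w _ => by ring
  have h3 : P μ N (k + 1) = ∑ z : (Fin k → V) × V, (wt μ N z.1 * (μ z.2 * I (Al N z.1 z.2))) := by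
    rw [P_succ hEX μ hN k, E_eq, Fintype.sum_prod_type]
    refine sum_congr rfl fun x _ => ?_
    rw [mul_sum]
  have h0 : ∀ z : (Fin k → V) × V, 0 ≤ wt μ N z.1 * (μ z.2 * I (Al N z.1 z.2)) := fun z =>
    mul_nonneg (wt_nonneg hμ N _) (mul_nonneg (hμ _) (I_nonneg _))
  rw [h1, h2, h3]
  apply Finset.sum_sq_le_sum_mul_sum_of_sq_eq_mul
  · intro z _
    exact mul_nonneg (h0 z) (sq_nonneg _)
  · intro z _
    exact h0 z
  · intro z _
    ring

end Pool.Agent.Y349.DC3.J
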