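import Pool.Agent.Y354.DC3.Stm

/-!
# DC3: from regular weights to all weights (helper349, for helper354)
-/

set_option autoImplicit false

open Finset
open scoped Classical

namespace Pool.Agent.Y349.DC3

open Pool.Agent.Y354.DC3

theorem I_nonneg (p : Prop) : 0 ≤ I p := by
  unfold I
  split_ifs <;> norm_num

theorem tt_nonneg {V : Type} [Fintype V] (μ : V → ℝ) (N : V → V → V → Prop) (h : ∀ v, 0 ≤ μ v) :
    0 ≤ tt μ N := by
  unfold tt dg
  refine sum_nonneg fun w _ => mul_nonneg (h w) (sum_nonneg fun v _ => sum_nonneg fun u _ => ?_)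
  exact mul_nonneg (mul_nonneg (h v) (h u)) (I_nonneg _)

theorem s_main : S_RG → S_MIN → S_CO → S_MAIN := by
  intro hRG hMIN hCO V _ N hN m hm hno ν hν
  have hne : Nonempty V := by
    by_contra hcon
    rw [not_nonempty_iff] at hcon
    have h1 := hν.2
    rw [univ_eq_empty, sum_empty] at h1
    exact zero_ne_one h1
  obtain ⟨μ, hμ, hmin, hreg⟩ := hMIN V N hN
  obtain ⟨A, hA⟩ := hRG
  have hex : ∃ a, ¬ ∃ x : Fin (a + 1) → V, Ind N x ∧ ∀ i, 0 < μ (x i) := by
    refine ⟨m - 1, ?_⟩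
    rintro ⟨x, hx, -⟩
    obtain ⟨m', rfl⟩ : ∃ m', m = m' + 1 := ⟨m - 1, by omega⟩
    exact hno x hx
  set a := Nat.find hex with ha
  have ha1 : a ≤ m - 1 := by
    apply Nat.find_min' hex
    rintro ⟨x, hx, -⟩
    obtain ⟨m', rfl⟩ : ∃ m', m = m' + 1 := ⟨m - 1, by omega⟩
    exact hno x hx
  have hspec := Nat.find_spec hex
  rw [← ha] at hspec
  have hapos : 1 ≤ a := by
    by_contra hcon
    have h0 : a = 0 := by omega
    rw [h0] at hspec
    apply hspec
    have h1 : ∃ v, 0 < μ v := by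
      by_contra hc
      push Not at hc
      have h2 := sum_nonpos fun v (_ : v ∈ (univ : Finset V)) => hc v
      rw [hμ.2] at h2
      linarith
    obtain ⟨v, hv⟩ := h1
    refine ⟨fun _ => v, ?_, fun _ => hv⟩
    intro i j l hij
    exact absurd (Fin.ext (by omega)) hij
  have hLg : Lg μ N a := by
    refine ⟨?_, fun x hx hx2 => hspec ⟨x, hx2, hx⟩⟩
    by_contra hcon
    have h1 : a - 1 < a := by omega
    have h2 := Nat.find_min hex (m := a - 1) (by rw [← ha]; exact h1)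
    apply h2
    rw [show a - 1 + 1 = a by omega]
    by_contra hcon2
    exact hcon hcon2
  obtain ⟨h1, h2, h3, h4⟩ := hCO V μ N hN hμ (tt μ N) hreg a hLg (A + 1) (by omega)
  have h5 := hA (V × Fin (A + 1)) (fun z => μ z.1 / ((A + 1 : ℕ) : ℝ)) (NC N (A + 1)) h1 h2
    (tt μ N / ((A + 1 : ℕ) : ℝ) ^ 2) h3 ((A + 1) * a) (by nlinarith) h4
  have hs : (0 : ℝ) < ((A + 1 : ℕ) : ℝ) := by positivity
  have h6 : (((A + 1) * a : ℕ) : ℝ) ^ 2 * (tt μ N / ((A + 1 : ℕ) : ℝ) ^ 2) =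
      (a : ℝ) ^ 2 * tt μ N := by
    rw [Nat.cast_mul]
    field_simp
  rw [h6] at h5
  have h7 : (a : ℝ) ≤ (m : ℝ) - 1 := by
    have : a + 1 ≤ m := by omega
    have : ((a + 1 : ℕ) : ℝ) ≤ m := by exact_mod_cast this
    push_cast at this
    linarith
  have h8 := tt_nonneg μ N hμ.1
  have h9 := hmin ν hν
  calc (49 / 20 : ℝ) ≤ (a : ℝ) ^ 2 * tt μ N := h5
    _ ≤ ((m : ℝ) - 1) ^ 2 * tt ν N := by
        apply mul_le_mul _ h9 h8 (by positivity)
        exact pow_le_pow_left₀ (Nat.cast_nonneg _) h7 2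

end Pool.Agent.Y349.DC3
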